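import Pool.Agent.PRT.StmtsD
import Pool.Agent.PRT.Kit

/-!
# Squad PRT, row SDF (helper21): the function `S`
-/

set_option autoImplicit false

namespace Pool.Agent.PRT.H21

open Set MeasureTheory Pool.Agent.PRT
open scoped ContDiff

/-! ### the bilinear map -/

/-- `hcr a = (1/2) cr a` -/
noncomputable def hcr : E →L[ℝ] E →L[ℝ] ℝ := (1 / 2 : ℝ) • crL

theorem hcr_apply (a u : E) : hcr a u = 1 / 2 * cr a u := by
  simp [hcr, crL_apply]

theorem hcr_norm : ‖hcr‖ ≤ 1 := by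
  refine ContinuousLinearMap.opNorm_le_bound _ zero_le_one fun a => ?_
  rw [one_mul]
  refine ContinuousLinearMap.opNorm_le_bound _ (norm_nonneg a) fun u => ?_
  rw [hcr_apply, Real.norm_eq_abs, abs_mul, abs_of_pos (by norm_num : (0 : ℝ) < 1 / 2)]
  have := abs_cr_le a u
  linarith

/-- the form `η` -/
noncomputable def et (φ : E → E) (z : E) : E →L[ℝ] ℝ :=
  crL (φ z) + (hcr (φ z)).comp (fderiv ℝ φ z)

theorem et_apply (φ : E → E) (z u : E) :
    et φ z u = cr (φ z) u + 1 / 2 * cr (φ z) (fderiv ℝ φ z u) := by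
  show crL (φ z) u + hcr (φ z) (fderiv ℝ φ z u) = _
  rw [crL_apply, hcr_apply]

theorem et_smooth {φ : E → E} (h : ContDiff ℝ ∞ φ) : ContDiff ℝ ∞ (et φ) := by
  have h1 : ContDiff ℝ ∞ (fderiv ℝ φ) := h.fderiv_right (by simp)
  have h2 : ContDiff ℝ ∞ (fun z => hcr (φ z)) := hcr.contDiff.comp h
  exact (crL.contDiff.comp h).add (h2.clm_comp h1)

theorem et_deriv {φ : E → E} (h : ContDiff ℝ ∞ φ) (z x y : E) :
    fderiv ℝ (et φ) z x y = cr (fderiv ℝ φ z x) y +
      (1 / 2 * cr (φ z) (fderiv ℝ (fderiv ℝ φ) z x y) +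
        1 / 2 * cr (fderiv ℝ φ z x) (fderiv ℝ φ z y)) := by
  have h1 : ContDiff ℝ ∞ (fderiv ℝ φ) := h.fderiv_right (by simp)
  have d0 : HasFDerivAt φ (fderiv ℝ φ z) z :=
    ((h.differentiable (by simp)).differentiableAt).hasFDerivAt
  have d1 : HasFDerivAt (fderiv ℝ φ) (fderiv ℝ (fderiv ℝ φ) z) z :=
    ((h1.differentiable (by simp)).differentiableAt).hasFDerivAt
  have a0 : HasFDerivAt (fun z => crL (φ z)) (crL.comp (fderiv ℝ φ z)) z :=
    crL.hasFDerivAt.comp z d0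
  have a1 : HasFDerivAt (fun z => hcr (φ z)) (hcr.comp (fderiv ℝ φ z)) z :=
    hcr.hasFDerivAt.comp z d0
  have a3 : HasFDerivAt (et φ) _ z := a0.add (a1.clm_comp d1)
  rw [a3.fderiv]
  show crL (fderiv ℝ φ z x) y + (hcr (φ z) (fderiv ℝ (fderiv ℝ φ) z x y) +
    hcr (fderiv ℝ φ z x) (fderiv ℝ φ z y)) = _
  rw [crL_apply, hcr_apply, hcr_apply]

/-- the form is closed -/
theorem et_closed {g : E → E} (hg : ContDiff ℝ ∞ g) (hdet : ∀ z, (fderiv ℝ g z).det = 1)
    (z x y : E) :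
    fderiv ℝ (et fun z => g z - z) z x y = fderiv ℝ (et fun z => g z - z) z y x := by
  have h : ContDiff ℝ ∞ (fun z => g z - z) := hg.sub contDiff_id
  rw [et_deriv h, et_deriv h]
  have hs : IsSymmSndFDerivAt ℝ (fun z => g z - z) z :=
    h.contDiffAt.isSymmSndFDerivAt (by
      rw [minSmoothness_of_isRCLikeNormedField]
      have h2 : ((2 : ℕ∞) : WithTop ℕ∞) ≤ ((⊤ : ℕ∞) : WithTop ℕ∞) := WithTop.coe_le_coe.2 le_top
      exact h2)
  have hs' := hs x y
  have hD : ∀ u, fderiv ℝ g z u = fderiv ℝ (fun z => g z - z) z u + u := by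
    intro u
    have e : fderiv ℝ (fun z => g z - z) z = fderiv ℝ g z - ContinuousLinearMap.id ℝ E := by
      have d0 : HasFDerivAt g (fderiv ℝ g z) z :=
        ((hg.differentiable (by simp)).differentiableAt).hasFDerivAt
      exact (d0.sub (hasFDerivAt_id z)).fderiv
    rw [e]
    simp
  have h2 := cr_map (fderiv ℝ g z) x y
  rw [hdet, one_mul, hD, hD] at h2
  rw [hs']
  generalize fderiv ℝ (fun z => g z - z) z x = a at *
  generalize fderiv ℝ (fun z => g z - z) z y = b at *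
  unfold cr at *
  simp only [Prod.fst_add, Prod.snd_add] at h2
  linear_combination h2

/-! ### integrals over the square -/

theorem Q_compact : IsCompact Q := isCompact_Icc.prod isCompact_Icc

theorem volQ : (volume : Measure E).real Q = 1 := by
  unfold Q
  rw [Measure.real, Measure.volume_eq_prod, Measure.prod_prod, Real.volume_Icc]
  simp

theorem int_Q {V : Type} [NormedAddCommGroup V] {F : E → V} (hF : Continuous F) :
    IntegrableOn F Q := hF.continuousOn.integrableOn_compact Q_compact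

theorem Q2 {F : E → ℝ} (hF : Continuous F) :
    ∫ z in Q, F z = ∫ x in (0 : ℝ)..1, ∫ y in (0 : ℝ)..1, F (x, y) := by
  have h := setIntegral_prod (μ := (volume : Measure ℝ)) (ν := (volume : Measure ℝ))
    (s := Icc (0 : ℝ) 1) (t := Icc (0 : ℝ) 1) F (int_Q hF)
  have h1 : ∫ z in Q, F z = ∫ x in Icc (0 : ℝ) 1, ∫ y in Icc (0 : ℝ) 1, F (x, y) := h
  rw [h1, intervalIntegral.integral_of_le zero_le_one, integral_Icc_eq_integral_Ioc]
  congr 1
  funext x
  rw [intervalIntegral.integral_of_le zero_le_one, integral_Icc_eq_integral_Ioc]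

theorem Q1 {F : E → ℝ} (hF : Continuous F) :
    ∫ z in Q, F z = ∫ y in (0 : ℝ)..1, ∫ x in (0 : ℝ)..1, F (x, y) := by
  rw [Q2 hF]
  simp only [intervalIntegral.integral_of_le (zero_le_one (α := ℝ))]
  refine integral_integral_swap ?_
  rw [Measure.prod_restrict]
  have h := int_Q hF
  refine IntegrableOn.mono_set (t := Q) h ?_
  exact prod_mono Ioc_subset_Icc_self Ioc_subset_Icc_self

/-! ### the row -/

/-- row SDF -/
theorem sdf (hM : MeaStmt) : SdfStmt := by
  intro k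
  refine ⟨2 * k + 19, 2 ^ k + 2, ?_⟩
  intro g v C l N hl hN
  have hg := hN.lf.sm
  have hl1 := hN.l1
  have hl0 : 0 < l := by linarith
  have hv0 := hN.v0
  obtain ⟨φ, hφd⟩ : ∃ φ : E → E, φ = fun z => g z - z := ⟨_, rfl⟩
  have hφ : ContDiff ℝ ∞ φ := by
    rw [hφd]
    exact hg.sub contDiff_id
  have hφ1 : ContDiff ℝ ∞ (fderiv ℝ φ) := hφ.fderiv_right (by simp)
  have hper : ∀ (a b : ℤ) (z : E), φ (z + iv a b) = φ z := by
    intro a b z
    rw [hφd]
    show g (z + iv a b) - (z + iv a b) = g z - z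
    rw [hN.lf.eqv]
    abel
  have hper' : ∀ (a b : ℤ) (z : E), fderiv ℝ φ (z + iv a b) = fderiv ℝ φ z := by
    intro a b z
    rw [← fderiv_comp_add_right (iv a b)]
    congr 1
    funext x
    exact hper a b x
  have hbd := hN.bd
  -- the form
  obtain ⟨η, hηd⟩ : ∃ η : E → E →L[ℝ] ℝ, η = et φ := ⟨_, rfl⟩
  have hη : ContDiff ℝ ∞ η := by
    rw [hηd]
    exact et_smooth hφ
  have hηa : ∀ z u, η z u = cr (φ z) u + 1 / 2 * cr (φ z) (fderiv ℝ φ z u) := by
    intro z u
    rw [hηd, et_apply]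
  have hηper : ∀ (a b : ℤ) (z : E), η (z + iv a b) = η z := by
    intro a b z
    refine ContinuousLinearMap.ext fun u => ?_
    rw [hηa, hηa, hper, hper']
  have hclosed : ∀ a ∈ (univ : Set E), ∀ x y, fderiv ℝ η a x y = fderiv ℝ η a y x := by
    intro z _ x y
    rw [hηd, hφd]
    exact et_closed hg hN.lf.det z x y
  obtain ⟨S1, hS1⟩ := (convex_univ (𝕜 := ℝ) (E := E)).exists_forall_hasFDerivAt_of_fderiv_symmetric
    isOpen_univ ((hη.differentiable (by simp)).differentiableOn) hclosed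
  have hS1' : ∀ z, HasFDerivAt S1 (η z) z := fun z => hS1 z (mem_univ z)
  have hS1s : ContDiff ℝ ∞ S1 := by
    rw [contDiff_infty_iff_fderiv]
    refine ⟨fun z => (hS1' z).differentiableAt, ?_⟩
    have e : fderiv ℝ S1 = η := by
      funext z
      exact (hS1' z).fderiv
    rw [e]
    exact hη
  -- the periods
  have hcon : ∀ (a b : ℤ) (z : E), S1 (z + iv a b) = S1 z + (S1 (iv a b) - S1 0) := by
    intro a b z
    have hd : ∀ z, HasFDerivAt (fun z => S1 (z + iv a b) - S1 z) (0 : E →L[ℝ] ℝ) z := by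
      intro z
      have h1 : HasFDerivAt (fun z => S1 (z + iv a b)) (η (z + iv a b)) z := by
        have h2 := (hS1' (z + iv a b)).comp z ((hasFDerivAt_id z).add_const (iv a b))
        exact h2
      have h3 := h1.sub (hS1' z)
      rw [hηper, sub_self] at h3
      exact h3
    have h4 := is_const_of_fderiv_eq_zero (𝕜 := ℝ) (f := fun z => S1 (z + iv a b) - S1 z)
      (fun z => (hd z).differentiableAt) (fun z => (hd z).fderiv) z 0
    have h5 : S1 (z + iv a b) - S1 z = S1 (0 + iv a b) - S1 0 := h4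
    rw [zero_add] at h5
    linarith
  have hiv : ∀ a b a' b' : ℤ, iv (a + a') (b + b') = iv a b + iv a' b' := by
    intro a b a' b'
    unfold iv
    simp
  let f : ℤ × ℤ →+ ℝ :=
    { toFun := fun p => S1 (iv p.1 p.2) - S1 0
      map_zero' := by
        show S1 (iv 0 0) - S1 0 = 0
        have : iv 0 0 = 0 := by
          unfold iv
          simp
        rw [this, sub_self]
      map_add' := by
        intro p q
        show S1 (iv (p.1 + q.1) (p.2 + q.2)) - S1 0 = _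
        rw [hiv, hcon]
        ring }
  have hf : ∀ a b : ℤ, S1 (iv a b) - S1 0 = a * f (1, 0) + b * f (0, 1) := by
    intro a b
    have h1 : f (a, b) = f (a • (1, 0) + b • (0, 1)) := by
      congr 1
      ext <;> simp
    have h2 : f (a, b) = S1 (iv a b) - S1 0 := rfl
    rw [← h2, h1, map_add, map_zsmul, map_zsmul]
    simp
  have hbd0 : ∀ z, ‖φ z‖ ≤ ‖v‖ * l ^ 8 := by
    intro z
    have := hbd 0 (by omega) z
    rw [norm_iteratedFDeriv_zero] at this
    rw [hφd]
    exact this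
  have hbd1 : ∀ z, ‖fderiv ℝ φ z‖ ≤ ‖v‖ * l ^ 9 := by
    intro z
    have := hbd 1 (by omega) z
    rw [← norm_iteratedFDeriv_fderiv, norm_iteratedFDeriv_zero, ← hφd] at this
    exact this
  -- the mean of the form
  have hmean : ∀ e : E, ‖e‖ ≤ 1 → |(∫ z in Q, η z e) - cr v e| ≤ ‖v‖ ^ 2 * l ^ 17 := by
    intro e he
    have i1 : IntegrableOn (fun z => cr (φ z) e) Q := by
      have h1 : Continuous (fun z => crL (φ z) e) := by
        have := hφ.continuous
        fun_prop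
      have h2 := int_Q h1
      simpa only [crL_apply] using h2
    have hc2 : Continuous (fun z => cr (φ z) (fderiv ℝ φ z e)) := by
      have c1 := hφ.continuous
      have c2 := hφ1.continuous
      have h1 : Continuous (fun z => crL (φ z) (fderiv ℝ φ z e)) :=
        (crL.continuous.comp c1).clm_apply (c2.clm_apply continuous_const)
      simpa only [crL_apply] using h1
    have i2 : IntegrableOn (fun z => 1 / 2 * cr (φ z) (fderiv ℝ φ z e)) Q :=
      int_Q (continuous_const.mul hc2)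
    have e1 : ∫ z in Q, η z e = (∫ z in Q, cr (φ z) e) +
        ∫ z in Q, 1 / 2 * cr (φ z) (fderiv ℝ φ z e) := by
      rw [← integral_add i1 i2]
      congr 1
      funext z
      exact hηa z e
    have e2 : ∫ z in Q, cr (φ z) e = cr v e := by
      have h1 := (crL.flip e).integral_comp_comm (μ := volume.restrict Q) (int_Q hφ.continuous)
      have h2 : ∫ z in Q, φ z = v := by
        rw [hφd]
        exact hM g v C hN.lf
      rw [h2] at h1
      have h3 : ∀ a, crL.flip e a = cr a e := fun a => crL_apply a e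
      simp only [h3] at h1
      exact h1
    have e3 : |∫ z in Q, 1 / 2 * cr (φ z) (fderiv ℝ φ z e)| ≤ ‖v‖ ^ 2 * l ^ 17 := by
      have h1 : ∀ z ∈ Q, ‖1 / 2 * cr (φ z) (fderiv ℝ φ z e)‖ ≤ ‖v‖ ^ 2 * l ^ 17 := by
        intro z _
        rw [Real.norm_eq_abs, abs_mul, abs_of_pos (by norm_num : (0 : ℝ) < 1 / 2)]
        have h2 := abs_cr_le (φ z) (fderiv ℝ φ z e)
        have h3 : ‖fderiv ℝ φ z e‖ ≤ ‖v‖ * l ^ 9 := by
          refine ((fderiv ℝ φ z).le_opNorm e).trans ?_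
          calc ‖fderiv ℝ φ z‖ * ‖e‖ ≤ (‖v‖ * l ^ 9) * 1 :=
                mul_le_mul (hbd1 z) he (norm_nonneg _) (by positivity)
            _ = _ := mul_one _
        have h4 : ‖φ z‖ * ‖fderiv ℝ φ z e‖ ≤ (‖v‖ * l ^ 8) * (‖v‖ * l ^ 9) :=
          mul_le_mul (hbd0 z) h3 (norm_nonneg _) (by positivity)
        calc 1 / 2 * |cr (φ z) (fderiv ℝ φ z e)|
            ≤ 1 / 2 * (2 * ‖φ z‖ * ‖fderiv ℝ φ z e‖) :=
              mul_le_mul_of_nonneg_left h2 (by norm_num)
          _ = ‖φ z‖ * ‖fderiv ℝ φ z e‖ := by ring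
          _ ≤ (‖v‖ * l ^ 8) * (‖v‖ * l ^ 9) := h4
          _ = ‖v‖ ^ 2 * l ^ 17 := by ring
      have h2 := norm_setIntegral_le_of_norm_le_const (μ := (volume : Measure E)) (s := Q)
        Q_compact.measure_lt_top h1
      rw [volQ, mul_one] at h2
      exact h2
    rw [e1, e2, add_sub_cancel_left]
    exact e3
  -- the periods as integrals
  have hcη : ∀ e : E, Continuous (fun z => η z e) := fun e => hη.continuous.clm_apply continuous_const
  have p1 : ∫ z in Q, η z (1, 0) = f (1, 0) := by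
    rw [Q1 (hcη _)]
    have h1 : ∀ y : ℝ, ∫ x in (0 : ℝ)..1, η (x, y) (1, 0) = f (1, 0) := by
      intro y
      have hd : ∀ x : ℝ, HasDerivAt (fun x : ℝ => S1 (x, y)) (η (x, y) (1, 0)) x := by
        intro x
        have h2 : HasDerivAt (fun x : ℝ => ((x, y) : E)) ((1, 0) : E) x :=
          (hasDerivAt_id x).prodMk (hasDerivAt_const x y)
        exact (hS1' (x, y)).comp_hasDerivAt x h2
      rw [intervalIntegral.integral_eq_sub_of_hasDerivAt (fun x _ => hd x)
        (((hcη (1, 0)).comp (by fun_prop)).intervalIntegrable 0 1)]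
      have h3 := hcon 1 0 ((0, y) : E)
      have h4 : ((0, y) : E) + iv 1 0 = (1, y) := by
        unfold iv
        simp
      rw [h4] at h3
      have h5 : f (1, 0) = S1 (iv 1 0) - S1 0 := rfl
      rw [h5]
      linarith
    simp only [h1]
    simp
  have p2 : ∫ z in Q, η z (0, 1) = f (0, 1) := by
    rw [Q2 (hcη _)]
    have h1 : ∀ x : ℝ, ∫ y in (0 : ℝ)..1, η (x, y) (0, 1) = f (0, 1) := by
      intro x
      have hd : ∀ y : ℝ, HasDerivAt (fun y : ℝ => S1 (x, y)) (η (x, y) (0, 1)) y := by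
        intro y
        have h2 : HasDerivAt (fun y : ℝ => ((x, y) : E)) ((0, 1) : E) y :=
          (hasDerivAt_const y x).prodMk (hasDerivAt_id y)
        exact (hS1' (x, y)).comp_hasDerivAt y h2
      rw [intervalIntegral.integral_eq_sub_of_hasDerivAt (fun y _ => hd y)
        (((hcη (0, 1)).comp (by fun_prop)).intervalIntegrable 0 1)]
      have h3 := hcon 0 1 ((x, 0) : E)
      have h4 : ((x, 0) : E) + iv 0 1 = (x, 1) := by
        unfold iv
        simp
      rw [h4] at h3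
      have h5 : f (0, 1) = S1 (iv 0 1) - S1 0 := rfl
      rw [h5]
      linarith
    simp only [h1]
    simp
  have n1 : ‖((1, 0) : E)‖ ≤ 1 := by simp [Prod.norm_def]
  have n2 : ‖((0, 1) : E)‖ ≤ 1 := by simp [Prod.norm_def]
  have m1 := hmean (1, 0) n1
  have m2 := hmean (0, 1) n2
  rw [p1] at m1
  rw [p2] at m2
  obtain ⟨r1, hr1⟩ : ∃ r1, r1 = f (1, 0) - cr v (1, 0) := ⟨_, rfl⟩
  obtain ⟨r2, hr2⟩ : ∃ r2, r2 = f (0, 1) - cr v (0, 1) := ⟨_, rfl⟩
  rw [← hr1] at m1
  rw [← hr2] at m2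
  obtain ⟨Rr, hRr⟩ : ∃ Rr : E →L[ℝ] ℝ, Rr = r1 • ContinuousLinearMap.fst ℝ ℝ ℝ +
    r2 • ContinuousLinearMap.snd ℝ ℝ ℝ := ⟨_, rfl⟩
  have hRa : ∀ z, Rr z = r1 * z.1 + r2 * z.2 := by
    intro z
    rw [hRr]
    simp
  refine ⟨fun z => S1 z - Rr z, hS1s.sub Rr.contDiff, ?_, ?_⟩
  · intro a b z
    show S1 (z + iv a b) - Rr (z + iv a b) = S1 z - Rr z + cr v (iv a b)
    rw [hcon, hf, map_add, hRa (iv a b), hr1, hr2]
    unfold iv cr
    simp
    ring
  · have hfd : ∀ z, fderiv ℝ (fun z => S1 z - Rr z) z = η z - Rr := by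
      intro z
      exact ((hS1' z).sub Rr.hasFDerivAt).fderiv
    have e : (fun z => fderiv ℝ (fun z => S1 z - Rr z) z - crL (g z - z)) =
        fun z => ContinuousLinearMap.compL ℝ E E ℝ (hcr (φ z)) (fderiv ℝ φ z) - Rr := by
      funext z
      rw [hfd, hηd]
      have : g z - z = φ z := by rw [hφd]
      rw [this]
      show (crL (φ z) + (hcr (φ z)).comp (fderiv ℝ φ z)) - Rr - crL (φ z) =
        (hcr (φ z)).comp (fderiv ℝ φ z) - Rr
      abel
    rw [e]
    have hpow : ∀ i j : ℕ, i ≤ j → l ^ i ≤ l ^ j := fun i j h => pow_le_pow_right₀ hl1 h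
    have b0 : Bd (k + 1) (‖v‖ * l ^ (k + 9)) φ := by
      intro i hi z
      have h1 := hbd i hi z
      rw [← hφd] at h1
      refine h1.trans ?_
      exact mul_le_mul_of_nonneg_left (hpow _ _ (by omega)) hv0.le
    have b1 : Bd k (‖v‖ * l ^ (k + 9)) (fderiv ℝ φ) := (bd_succ.1 b0).2
    have s1 : ContDiff ℝ ∞ (fun z => hcr (φ z)) := hcr.contDiff.comp hφ
    have b5 : Bd k (‖v‖ * l ^ (k + 9)) (fun z => hcr (φ z)) := by
      refine ((b0.mono (Nat.le_succ k) le_rfl).clm hφ hcr).mono le_rfl ?_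
      calc ‖hcr‖ * (‖v‖ * l ^ (k + 9)) ≤ 1 * (‖v‖ * l ^ (k + 9)) :=
            mul_le_mul_of_nonneg_right hcr_norm (by positivity)
        _ = _ := one_mul _
    have b2 := Bd.bil (ContinuousLinearMap.compL ℝ E E ℝ)
      (ContinuousLinearMap.norm_compL_le ℝ E E ℝ) b5 b1 s1 hφ1
    have b3 : Bd k ‖Rr‖ (fun _ : E => Rr) := bd_const k Rr
    have s2 : ContDiff ℝ ∞
        (fun z => ContinuousLinearMap.compL ℝ E E ℝ (hcr (φ z)) (fderiv ℝ φ z)) :=
      s1.clm_comp hφ1
    have b4 := b2.sub b3 s2 contDiff_const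
    refine b4.mono le_rfl ?_
    have hRn : ‖Rr‖ ≤ 2 * (‖v‖ ^ 2 * l ^ 17) := by
      refine ContinuousLinearMap.opNorm_le_bound _ (by positivity) fun z => ?_
      rw [hRa, Real.norm_eq_abs]
      have h1 : |z.1| ≤ ‖z‖ := norm_fst_le z
      have h2 : |z.2| ≤ ‖z‖ := norm_snd_le z
      calc |r1 * z.1 + r2 * z.2| ≤ |r1| * |z.1| + |r2| * |z.2| := by
            rw [← abs_mul, ← abs_mul]
            exact abs_add_le _ _
        _ ≤ (‖v‖ ^ 2 * l ^ 17) * ‖z‖ + (‖v‖ ^ 2 * l ^ 17) * ‖z‖ :=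
            add_le_add (mul_le_mul m1 h1 (abs_nonneg _) (by positivity))
              (mul_le_mul m2 h2 (abs_nonneg _) (by positivity))
        _ = 2 * (‖v‖ ^ 2 * l ^ 17) * ‖z‖ := by ring
    have h17 := hpow 17 (2 * k + 18) (by omega)
    have hv2 : 0 ≤ ‖v‖ ^ 2 := by positivity
    calc 2 ^ k * (‖v‖ * l ^ (k + 9)) * (‖v‖ * l ^ (k + 9)) + ‖Rr‖
        ≤ 2 ^ k * (‖v‖ * l ^ (k + 9)) * (‖v‖ * l ^ (k + 9)) + 2 * (‖v‖ ^ 2 * l ^ 17) := by
          linarith
      _ = ‖v‖ ^ 2 * (2 ^ k * l ^ (2 * k + 18)) + ‖v‖ ^ 2 * (2 * l ^ 17) := by ring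
      _ ≤ ‖v‖ ^ 2 * (2 ^ k * l ^ (2 * k + 18)) + ‖v‖ ^ 2 * (2 * l ^ (2 * k + 18)) := by
          have := mul_le_mul_of_nonneg_left (mul_le_mul_of_nonneg_left h17 (by norm_num : (0 : ℝ) ≤ 2)) hv2
          linarith
      _ = ‖v‖ ^ 2 * ((2 ^ k + 2) * l ^ (2 * k + 18)) := by ring
      _ ≤ ‖v‖ ^ 2 * (l * l ^ (2 * k + 18)) := by
          refine mul_le_mul_of_nonneg_left (mul_le_mul_of_nonneg_right hl (by positivity)) hv2
      _ = ‖v‖ ^ 2 * l ^ (2 * k + 19) := by ring

end Pool.Agent.PRT.H21
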